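import Pool.Agent.H992.BE.Defs

/-!
# BE4 (helper177): limits of averages along ultrafilters
-/

set_option autoImplicit false
open MeasureTheory Filter Topology
open scoped ENNReal NNReal BoundedContinuousFunction

namespace Pool.Agent.H177.BE

open Pool.Agent.H992.BE

/-- The lemma of Toeplitz for the weights. -/
theorem toeplitz {a : ℕ → ℕ → ℝ≥0} {L : ℕ → ℕ} (hS : Sch a L) {b : ℕ → ℝ}
    (hb : Tendsto b atTop (𝓝 0)) :
    Tendsto (fun N => ∑ n ∈ Finset.range (L N), (a N n : ℝ) * b n) atTop (𝓝 0) := by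
  rw [NormedAddGroup.tendsto_nhds_zero]
  intro ε hε
  have h1 : ∀ᶠ n in atTop, ‖b n‖ < ε / 2 :=
    (NormedAddGroup.tendsto_nhds_zero.1 hb) (ε / 2) (half_pos hε)
  obtain ⟨n0, hn0⟩ := eventually_atTop.1 h1
  have h2 : Tendsto (fun N => ∑ n ∈ Finset.range n0, (a N n : ℝ) * ‖b n‖) atTop (𝓝 0) := by
    have h := tendsto_finsetSum (Finset.range n0)
      (fun n _ => ((NNReal.tendsto_coe.2 (hS.zero n)).mul_const ‖b n‖))
    simpa using h
  have h3 : ∀ᶠ N in atTop, ∑ n ∈ Finset.range n0, (a N n : ℝ) * ‖b n‖ < ε / 2 :=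
    h2.eventually (gt_mem_nhds (half_pos hε))
  filter_upwards [h3] with N hN
  have h4 : ‖∑ n ∈ Finset.range (L N), (a N n : ℝ) * b n‖ ≤
      ∑ n ∈ Finset.range (L N), (a N n : ℝ) * ‖b n‖ := by
    refine norm_sum_le_of_le _ fun n _ => ?_
    rw [norm_mul, Real.norm_of_nonneg (NNReal.coe_nonneg _)]
  have h5 : ∑ n ∈ Finset.range (L N), (a N n : ℝ) * ‖b n‖ ≤
      ∑ n ∈ Finset.range (L N), ((if n < n0 then (a N n : ℝ) * ‖b n‖ else 0) +
        (a N n : ℝ) * (ε / 2)) := by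
    refine Finset.sum_le_sum fun n _ => ?_
    split_ifs with h
    · have : 0 ≤ (a N n : ℝ) * (ε / 2) := mul_nonneg (NNReal.coe_nonneg _) (half_pos hε).le
      linarith
    · rw [zero_add]
      exact mul_le_mul_of_nonneg_left (hn0 n (not_lt.1 h)).le (NNReal.coe_nonneg _)
  have h6 : ∑ n ∈ Finset.range (L N), (if n < n0 then (a N n : ℝ) * ‖b n‖ else 0) ≤
      ∑ n ∈ Finset.range n0, (a N n : ℝ) * ‖b n‖ := by
    rw [← Finset.sum_filter]
    refine Finset.sum_le_sum_of_subset_of_nonneg ?_ fun n _ _ =>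
      mul_nonneg (NNReal.coe_nonneg _) (norm_nonneg _)
    intro n hn
    rw [Finset.mem_filter] at hn
    exact Finset.mem_range.2 hn.2
  have h7 : ∑ n ∈ Finset.range (L N), (a N n : ℝ) * (ε / 2) ≤ ε / 2 := by
    rw [← Finset.sum_mul]
    have h8 : ∑ n ∈ Finset.range (L N), (a N n : ℝ) ≤ 1 := by
      have := hS.le N
      exact_mod_cast this
    have := half_pos hε
    nlinarith
  rw [Finset.sum_add_distrib] at h5
  linarith

/-- Bounded continuous functions are integrable. -/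
theorem integrable_bc [MeasurableSpace C(ℂ, ℝ)] [BorelSpace C(ℂ, ℝ)] (μ : Measure C(ℂ, ℝ))
    [IsFiniteMeasure μ] {G : C(ℂ, ℝ) → ℝ} (hG : Continuous G) {C : ℝ} (hC : ∀ f, |G f| ≤ C) :
    Integrable G μ :=
  Integrable.of_bound hG.measurable.aestronglyMeasurable C (Eventually.of_forall hC)

/-- Integrals over weighted sums. -/
theorem integral_wsum [MeasurableSpace C(ℂ, ℝ)] [BorelSpace C(ℂ, ℝ)]
    (m : ℕ → Measure C(ℂ, ℝ)) (hm : ∀ n, IsFiniteMeasure (m n)) (w : ℕ → ℝ≥0) (k : ℕ)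
    {G : C(ℂ, ℝ) → ℝ} (hG : Continuous G) {C : ℝ} (hC : ∀ f, |G f| ≤ C) :
    ∫ f, G f ∂(∑ n ∈ Finset.range k, w n • m n) =
      ∑ n ∈ Finset.range k, (w n : ℝ) * ∫ f, G f ∂(m n) := by
  rw [integral_finsetSum_measure]
  · refine Finset.sum_congr rfl fun n _ => ?_
    rw [integral_smul_nnreal_measure, NNReal.smul_def, smul_eq_mul]
  · intro n _
    have := hm n
    exact (integrable_bc (m n) hG hC).smul_measure_nnreal

/-- **BE4.** -/
theorem lim (h0 : S_KS) (h1 : S_Mod) : S_Lim := by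
  intro _ _ m hm a L hS φ hφ
  obtain ⟨T, hTc, hTt, hTG⟩ := h1 m hm
  have hprob : ∀ n, IsProbabilityMeasure (m n) := hm.prob
  -- the compact sets
  have hpos : ∀ j : ℕ, (0 : ℝ≥0∞) < (((1 / 2 : ℝ≥0) ^ j : ℝ≥0) : ℝ≥0∞) := by
    intro j
    rw [ENNReal.coe_pos]
    positivity
  choose K hK using fun j : ℕ => hTt _ (hpos j)
  -- the modified measures
  have hprobT : ∀ n, IsProbabilityMeasure ((m n).map (T n)) := fun n =>
    Measure.isProbabilityMeasure_map (hTc n).measurable.aemeasurable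
  obtain ⟨avT, havT⟩ : ∃ avT : ℕ → Measure C(ℂ, ℝ), avT = fun N =>
      ∑ n ∈ Finset.range (L N), a N n • (m n).map (T n) := ⟨_, rfl⟩
  have hval : ∀ (N : ℕ) (s : Set C(ℂ, ℝ)), avT N s =
      ∑ n ∈ Finset.range (L N), (a N n : ℝ≥0∞) * (m n).map (T n) s := by
    intro N s
    rw [havT]
    simp only [Measure.coe_finsetSum, Finset.sum_apply, Measure.smul_apply]
    rfl
  have hsum : ∀ N, ∑ n ∈ Finset.range (L N), (a N n : ℝ≥0∞) ≤ 1 := by
    intro N
    have := hS.le N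
    exact_mod_cast this
  have huniv : ∀ N, avT N Set.univ ≤ 1 := by
    intro N
    rw [hval]
    refine (Finset.sum_le_sum fun n _ => ?_).trans (hsum N)
    have := hprobT n
    rw [measure_univ, mul_one]
  have hfin : ∀ N, IsFiniteMeasure (avT N) := fun N => ⟨(huniv N).trans_lt ENNReal.one_lt_top⟩
  have hKc : ∀ j, IsCompact (KS (K j)) := fun j => h0 (K j)
  have htight : ∀ N j, avT N (KS (K j))ᶜ ≤ (((1 / 2 : ℝ≥0) ^ j : ℝ≥0) : ℝ≥0∞) := by
    intro N j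
    rw [hval]
    have h2 : ∀ n ∈ Finset.range (L N), (a N n : ℝ≥0∞) * (m n).map (T n) (KS (K j))ᶜ ≤
        (a N n : ℝ≥0∞) * (((1 / 2 : ℝ≥0) ^ j : ℝ≥0) : ℝ≥0∞) := by
      intro n _
      rw [Measure.map_apply (hTc n).measurable (hKc j).isClosed.measurableSet.compl]
      exact mul_le_mul_right (hK j n) _
    refine (Finset.sum_le_sum h2).trans ?_
    rw [← Finset.sum_mul]
    calc (∑ n ∈ Finset.range (L N), (a N n : ℝ≥0∞)) * (((1 / 2 : ℝ≥0) ^ j : ℝ≥0) : ℝ≥0∞)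
        ≤ 1 * (((1 / 2 : ℝ≥0) ^ j : ℝ≥0) : ℝ≥0∞) := mul_le_mul_left (hsum N) _
      _ = _ := one_mul _
  obtain ⟨M, hM⟩ : ∃ M : ℕ → FiniteMeasure C(ℂ, ℝ), ∀ N, (M N : Measure C(ℂ, ℝ)) = avT N :=
    ⟨fun N => ⟨avT N, hfin N⟩, fun N => rfl⟩
  have hcomp : IsCompact {μ : FiniteMeasure C(ℂ, ℝ) | μ.mass ≤ 1 ∧
      ∀ j, μ (KS (K j))ᶜ ≤ (1 / 2 : ℝ≥0) ^ j} := by
    refine isCompact_setOfPred_finiteMeasure_mass_le_compl_isCompact_le 1 ?_ hKc (Or.inl inferInstance)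
    refine NNReal.tendsto_pow_atTop_nhds_zero_of_lt_one ?_
    exact NNReal.half_lt_self one_ne_zero
  have hmem : ∀ N, M N ∈ {μ : FiniteMeasure C(ℂ, ℝ) | μ.mass ≤ 1 ∧
      ∀ j, μ (KS (K j))ᶜ ≤ (1 / 2 : ℝ≥0) ^ j} := by
    intro N
    refine ⟨?_, fun j => ?_⟩
    · rw [← ENNReal.coe_le_coe, FiniteMeasure.ennreal_mass, hM]
      exact_mod_cast huniv N
    · rw [← ENNReal.coe_le_coe, FiniteMeasure.ennreal_coeFn_eq_coeFn_toMeasure, hM]
      exact htight N j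
  obtain ⟨μ, -, hμ⟩ := hcomp.ultrafilter_le_nhds (φ.map M) (by
    rw [le_principal_iff]
    exact Filter.mem_map.2 (Filter.univ_mem' hmem))
  have hμ' : Tendsto M φ (𝓝 μ) := hμ
  rw [FiniteMeasure.tendsto_iff_forall_integral_tendsto] at hμ'
  refine ⟨μ, inferInstance, fun G hG hbd => ?_⟩
  obtain ⟨C, hC⟩ := hbd
  have h3 := hμ' (BoundedContinuousFunction.ofNormedAddCommGroup G hG C hC)
  have h4 : Tendsto (fun N => ∫ f, G f ∂(avT N)) φ (𝓝 (∫ f, G f ∂(μ : Measure C(ℂ, ℝ)))) := by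
    refine h3.congr fun N => ?_
    rw [hM]
    rfl
  have h5 := (toeplitz hS (hTG G hG ⟨C, hC⟩)).mono_left hφ
  have h6 := h4.add h5
  rw [add_zero] at h6
  refine h6.congr fun N => ?_
  unfold avg
  rw [integral_wsum m (fun n => inferInstance) (a N) (L N) hG hC, havT]
  rw [integral_wsum (fun n => (m n).map (T n)) (fun n => inferInstance) (a N) (L N) hG hC,
    ← Finset.sum_add_distrib]
  refine Finset.sum_congr rfl fun n _ => ?_
  rw [integral_map (hTc n).measurable.aemeasurable hG.measurable.aestronglyMeasurable]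
  ring

end Pool.Agent.H177.BE
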